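import Mathlib

/-!
# A hard word without a trace-zero witness in `SU(2)`

For `x, y ∈ SU(2)` with the same trace `T` and `z = tr (xy)`, the positive words
`p = x³` and `q = y x² y` satisfy
`p q - q p = T (T² - 1) (z - 1) (x y - y x)`,
hence `tr ((pq)⁻¹ (qp)) = 2 - T² (T² - 1)² (z - 1)² (2 - z) (2 + z - T²) > 0`.
-/

open Matrix Complex

namespace Q29.SU

/-- The group `SU(2)`. -/
abbrev SU2 : Type := Matrix.specialUnitaryGroup (Fin 2) ℂ

/-- The element of the free group on the letters `0` (= `a`), `1` (= `b`) given by a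
positive word. -/
def posWord (u : List (Fin 2)) : FreeGroup (Fin 2) := (u.map FreeGroup.of).prod

/-- `w` is a hard word: `w = u⁻¹ v` with `u ≠ v` positive words having the same numbers of
occurrences of each letter. -/
def IsHardWord (w : FreeGroup (Fin 2)) : Prop :=
  ∃ u v : List (Fin 2), u ≠ v ∧ (∀ i, u.count i = v.count i) ∧ w = (posWord u)⁻¹ * posWord v

/-- The value `w(A, B) ∈ SU(2)`. -/
def eval (A B : SU2) : FreeGroup (Fin 2) →* SU2 := FreeGroup.lift ![A, B]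

/-- The trace of `w(A, B)`. -/
def tr (M : SU2) : ℂ := Matrix.trace (M : Matrix (Fin 2) (Fin 2) ℂ)

/-- `w` has a trace-zero witness. -/
def HasTraceZeroWitness (w : FreeGroup (Fin 2)) : Prop := ∃ A B : SU2, tr (eval A B w) = 0

/-! ### Coordinates -/

/-- quaternion coordinates -/
def qm (a b c d : ℝ) : Matrix (Fin 2) (Fin 2) ℂ :=
  !![(a : ℂ) + b * I, -c + d * I; c + d * I, a - b * I]

lemma exists_coords (A : SU2) : ∃ a b c d : ℝ, a ^ 2 + b ^ 2 + c ^ 2 + d ^ 2 = 1 ∧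
    (A : Matrix (Fin 2) (Fin 2) ℂ) = qm a b c d := by
  obtain ⟨M, hM⟩ := A
  have hdet : M.det = 1 := hM.2
  have hU : star M * M = 1 := hM.1.1
  have hadj : star M = M.adjugate := by
    have h1 : M * M.adjugate = 1 := by rw [Matrix.mul_adjugate, hdet, one_smul]
    calc star M = star M * (M * M.adjugate) := by rw [h1, mul_one]
      _ = M.adjugate := by rw [← mul_assoc, hU, one_mul]
  have e00 : star (M 0 0) = M 1 1 := by
    have := congrFun (congrFun hadj 0) 0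
    simpa [Matrix.adjugate_fin_two, Matrix.star_apply] using this
  have e01 : star (M 1 0) = - M 0 1 := by
    have := congrFun (congrFun hadj 0) 1
    simpa [Matrix.adjugate_fin_two, Matrix.star_apply] using this
  refine ⟨(M 0 0).re, (M 0 0).im, (M 1 0).re, (M 1 0).im, ?_, ?_⟩
  · rw [Matrix.det_fin_two] at hdet
    have h01 : M 0 1 = - star (M 1 0) := by rw [e01, neg_neg]
    rw [← e00, h01] at hdet
    have := congrArg Complex.re hdet
    simp at this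
    nlinarith [this]
  · have h01 : M 0 1 = - star (M 1 0) := by rw [e01, neg_neg]
    ext i j
    fin_cases i <;> fin_cases j
    · simp [qm, Complex.re_add_im]
    · simp only [qm]
      rw [show (M : Matrix (Fin 2) (Fin 2) ℂ) ((fun i => i) ⟨0, by norm_num⟩)
        ((fun i => i) ⟨1, by norm_num⟩) = M 0 1 from rfl, h01]
      apply Complex.ext <;> simp
    · simp [qm, Complex.re_add_im]
    · simp only [qm]
      rw [show (M : Matrix (Fin 2) (Fin 2) ℂ) ((fun i => i) ⟨1, by norm_num⟩)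
        ((fun i => i) ⟨1, by norm_num⟩) = M 1 1 from rfl, ← e00]
      apply Complex.ext <;> simp

/-! ### The real inequality -/

lemma quartic (a : ℝ) : a * (4 - a) * (1 - a) ^ 2 < 27 / 2 := by
  nlinarith [sq_nonneg (a ^ 2 - 3 * a - 1 / 2), sq_nonneg (a - 7 / 2)]

lemma cubic {p : ℝ} (_h0 : 0 ≤ p) (h1 : p ≤ 1) : p * (1 - p) ^ 2 ≤ 4 / 27 := by
  nlinarith [mul_nonneg (sub_nonneg.2 h1) (sq_nonneg (p - 1 / 3)), sq_nonneg (p - 1 / 3),
    mul_nonneg _h0 (sq_nonneg (p - 1 / 3))]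

lemma case_small {p a b : ℝ} (hp : 0 ≤ p) (ha : 0 ≤ a) (hb : 0 ≤ b) (h : p + a + b = 4)
    (h1 : p ≤ 1) : p * a * b * (1 - p) ^ 2 * (1 - a) ^ 2 < 2 := by
  have h2 := cubic hp h1
  have h3 := quartic a
  have h4 : a * b * (1 - a) ^ 2 ≤ a * (4 - a) * (1 - a) ^ 2 := by
    apply mul_le_mul_of_nonneg_right _ (sq_nonneg _)
    apply mul_le_mul_of_nonneg_left _ ha
    linarith
  have h5 : 0 ≤ p * (1 - p) ^ 2 := by positivity
  have h6 : 0 ≤ a * b * (1 - a) ^ 2 := by positivity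
  have h7 : a * b * (1 - a) ^ 2 < 27 / 2 := lt_of_le_of_lt h4 h3
  calc p * a * b * (1 - p) ^ 2 * (1 - a) ^ 2 = (p * (1 - p) ^ 2) * (a * b * (1 - a) ^ 2) := by ring
    _ ≤ (4 / 27) * (a * b * (1 - a) ^ 2) := mul_le_mul_of_nonneg_right h2 h6
    _ < (4 / 27) * (27 / 2) := by apply mul_lt_mul_of_pos_left h7; norm_num
    _ = 2 := by norm_num

lemma real_ineq {p a b : ℝ} (hp : 0 ≤ p) (ha : 0 ≤ a) (hb : 0 ≤ b) (h : p + a + b = 4) :
    p * a * b * (1 - p) ^ 2 * (1 - a) ^ 2 < 2 := by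
  by_cases h1 : p ≤ 1
  · exact case_small hp ha hb h h1
  by_cases h2 : a ≤ 1
  · have := case_small ha hp hb (by linarith) h2
    calc p * a * b * (1 - p) ^ 2 * (1 - a) ^ 2 = a * p * b * (1 - a) ^ 2 * (1 - p) ^ 2 := by ring
      _ < 2 := this
  push Not at h1 h2
  -- P = p - 1, A = a - 1, P + A = 2 - b
  set P := p - 1 with hP
  set A := a - 1 with hA
  have hPA : P + A = 2 - b := by rw [hP, hA]; linarith
  have hP0 : 0 < P := by rw [hP]; linarith
  have hA0 : 0 < A := by rw [hA]; linarith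
  have hb2 : b < 2 := by linarith
  set m := P * A with hm
  have hm0 : 0 ≤ m := by positivity
  have hm1 : m ≤ (1 - b / 2) ^ 2 := by
    have : 4 * m ≤ (P + A) ^ 2 := by rw [hm]; nlinarith [sq_nonneg (P - A)]
    rw [hPA] at this; nlinarith
  have hm2 : m ≤ 1 := by nlinarith
  have h3 : p * a ≤ 4 := by
    have : p = P + 1 := by rw [hP]; ring
    have h' : a = A + 1 := by rw [hA]; ring
    rw [this, h']; nlinarith
  have h4 : p * a * b * (1 - p) ^ 2 * (1 - a) ^ 2 = (p * a) * b * m ^ 2 := by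
    rw [hm, hP, hA]; ring
  rw [h4]
  have h5 : m ^ 2 ≤ (1 - b / 2) ^ 2 := by nlinarith
  have h6 : b * (1 - b / 2) ^ 2 ≤ 8 / 27 := by
    have := cubic (p := b / 2) (by linarith) (by linarith)
    nlinarith
  have h7 : (p * a) * b * m ^ 2 ≤ 4 * (b * (1 - b / 2) ^ 2) := by
    have hb' : 0 ≤ b * m ^ 2 := by positivity
    calc (p * a) * b * m ^ 2 = (p * a) * (b * m ^ 2) := by ring
      _ ≤ 4 * (b * m ^ 2) := mul_le_mul_of_nonneg_right h3 hb'
      _ ≤ 4 * (b * (1 - b / 2) ^ 2) := by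
        apply mul_le_mul_of_nonneg_left _ (by norm_num)
        exact mul_le_mul_of_nonneg_left h5 hb
  nlinarith


/-! ### The matrix computation -/

section mat

variable {x0 x1 x2 x3 y1 y2 y3 : ℝ}

lemma sq_qm (hx : x0 ^ 2 + x1 ^ 2 + x2 ^ 2 + x3 ^ 2 = 1) :
    qm x0 x1 x2 x3 * qm x0 x1 x2 x3 =
      ((2 * x0 : ℝ) : ℂ) • qm x0 x1 x2 x3 - (1 : Matrix (Fin 2) (Fin 2) ℂ) := by
  ext i j
  fin_cases i <;> fin_cases j <;>
    simp only [qm, Matrix.mul_apply, Fin.sum_univ_two] <;>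
    apply Complex.ext <;> simp <;> nlinarith [hx]

lemma triple_qm (_hx : x0 ^ 2 + x1 ^ 2 + x2 ^ 2 + x3 ^ 2 = 1)
    (hy : x0 ^ 2 + y1 ^ 2 + y2 ^ 2 + y3 ^ 2 = 1) :
    qm x0 y1 y2 y3 * qm x0 x1 x2 x3 * qm x0 y1 y2 y3 =
      qm x0 x1 x2 x3 + ((2 * (x0 ^ 2 - x1 * y1 - x2 * y2 - x3 * y3) : ℝ) : ℂ) • qm x0 y1 y2 y3 -
        ((2 * x0 : ℝ) : ℂ) • (1 : Matrix (Fin 2) (Fin 2) ℂ) := by
  ext i j
  fin_cases i <;> fin_cases j <;>
    simp only [qm, Matrix.mul_apply, Fin.sum_univ_two] <;>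
    apply Complex.ext <;> simp [pow_two] <;>
    first
    | linear_combination (-x0) * hy
    | linear_combination x1 * hy
    | linear_combination x2 * hy
    | linear_combination x3 * hy
    | linear_combination (-x1) * hy
    | linear_combination (-x2) * hy

/-- The commutator identity. -/
lemma comm_identity {X Y : Matrix (Fin 2) (Fin 2) ℂ} {T z : ℂ}
    (hX : X * X = T • X - 1) (hY : Y * Y = T • Y - 1) (hYXY : Y * X * Y = X + z • Y - T • 1) :
    (X * X * X) * (Y * X * X * Y) - (Y * X * X * Y) * (X * X * X) =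
      ((T ^ 2 - 1) * T * (z - 1)) • (X * Y - Y * X) := by
  have h3 : X * X * X = (T ^ 2 - 1) • X - T • (1 : Matrix (Fin 2) (Fin 2) ℂ) := by
    rw [hX, sub_mul, smul_mul_assoc, hX, one_mul, smul_sub, smul_smul, sub_smul, one_smul, pow_two]
    abel
  have hW : Y * X * X * Y = T • X + (T * (z - 1)) • Y - (T ^ 2 - 1) • (1 : Matrix (Fin 2) (Fin 2) ℂ) := by
    have : Y * X * X * Y = Y * (X * X) * Y := by rw [mul_assoc Y X X]
    rw [this, hX, mul_sub, mul_one, mul_smul_comm, sub_mul, smul_mul_assoc, hYXY, hY, smul_sub,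
      smul_add, smul_smul, smul_smul, mul_sub, mul_one, sub_smul, sub_smul, one_smul, pow_two]
    abel
  rw [h3, hW]
  have e1 : ∀ (a b c d e : ℂ), (a • X - b • (1 : Matrix (Fin 2) (Fin 2) ℂ)) *
      (c • X + d • Y - e • (1 : Matrix (Fin 2) (Fin 2) ℂ)) -
      (c • X + d • Y - e • (1 : Matrix (Fin 2) (Fin 2) ℂ)) *
      (a • X - b • (1 : Matrix (Fin 2) (Fin 2) ℂ)) = (a * d) • (X * Y - Y * X) := by
    intro a b c d e
    simp only [sub_mul, mul_sub, add_mul, mul_add, smul_mul_assoc, mul_smul_comm, mul_one, one_mul,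
      smul_sub, smul_smul, smul_add]
    module
  rw [e1]
  congr 1
  ring

/-- The difference of two elements of `SU(2)` determines the trace of the quotient. -/
lemma re_tr_of_diff {U V : SU2} {k : ℝ} {x0 x1 x2 x3 y0 y1 y2 y3 : ℝ}
    (h : (U : Matrix (Fin 2) (Fin 2) ℂ) - V = (k : ℂ) •
      (qm x0 x1 x2 x3 * qm y0 y1 y2 y3 - qm y0 y1 y2 y3 * qm x0 x1 x2 x3)) :
    tr (U⁻¹ * V) = ((2 - 4 * k ^ 2 * ((x3 * y2 - x2 * y3) ^ 2 + (x1 * y3 - x3 * y1) ^ 2 +
      (x2 * y1 - x1 * y2) ^ 2) : ℝ) : ℂ) := by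
  obtain ⟨u0, u1, u2, u3, hu, hU⟩ := exists_coords U
  obtain ⟨v0, v1, v2, v3, hv, hV⟩ := exists_coords V
  have htr : tr (U⁻¹ * V) = ((2 * (u0 * v0 + u1 * v1 + u2 * v2 + u3 * v3) : ℝ) : ℂ) := by
    have : ((U⁻¹ * V : SU2) : Matrix (Fin 2) (Fin 2) ℂ) = star (U : Matrix (Fin 2) (Fin 2) ℂ) * V := rfl
    rw [tr, this, hU, hV, Matrix.trace_fin_two]
    simp only [qm, Matrix.mul_apply, Fin.sum_univ_two, Matrix.star_apply]
    apply Complex.ext <;> simp <;> ring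
  rw [hU, hV] at h
  have h00 := congrFun (congrFun h 0) 0
  have h10 := congrFun (congrFun h 1) 0
  simp only [qm, Matrix.mul_apply, Fin.sum_univ_two, Matrix.sub_apply, Matrix.smul_apply] at h00 h10
  have a0 := congrArg Complex.re h00
  have a1 := congrArg Complex.im h00
  have a2 := congrArg Complex.re h10
  have a3 := congrArg Complex.im h10
  simp at a0 a1 a2 a3
  have b0 : u0 - v0 = 0 := by rw [a0]; ring
  have b1 : u1 - v1 = 2 * k * (x3 * y2 - x2 * y3) := by rw [a1]; ring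
  have b2 : u2 - v2 = 2 * k * (x1 * y3 - x3 * y1) := by rw [a2]; ring
  have b3 : u3 - v3 = 2 * k * (x2 * y1 - x1 * y2) := by rw [a3]; ring
  rw [htr]
  norm_cast
  have : (u0 - v0) ^ 2 + (u1 - v1) ^ 2 + (u2 - v2) ^ 2 + (u3 - v3) ^ 2 =
      2 - 2 * (u0 * v0 + u1 * v1 + u2 * v2 + u3 * v3) := by linear_combination hu + hv
  rw [b0, b1, b2, b3] at this
  linear_combination this

/-- For `X, Y ∈ SU(2)` of the same trace, the commutator of the positive words `X³`, `Y X² Y`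
has positive trace. -/
lemma tr_pos (X Y : SU2) (hXY : tr X = tr Y) :
    ∃ r : ℝ, 0 < r ∧ tr (((X * X * X) * (Y * X * X * Y))⁻¹ * ((Y * X * X * Y) * (X * X * X))) = r := by
  obtain ⟨x0, x1, x2, x3, hx, hX⟩ := exists_coords X
  obtain ⟨y0, y1, y2, y3, hy, hY⟩ := exists_coords Y
  have h0 : y0 = x0 := by
    have := congrArg Complex.re hXY
    rw [tr, tr, hX, hY, Matrix.trace_fin_two, Matrix.trace_fin_two] at this
    simp [qm] at this
    linarith
  subst h0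
  set z : ℝ := 2 * (y0 ^ 2 - x1 * y1 - x2 * y2 - x3 * y3) with hz
  have hid := comm_identity (sq_qm hx) (sq_qm hy) (triple_qm hx hy)
  rw [← hz, ← hX, ← hY] at hid
  have hid2 : (((X * X * X) * (Y * X * X * Y) : SU2) : Matrix (Fin 2) (Fin 2) ℂ) -
      (((Y * X * X * Y) * (X * X * X) : SU2) : Matrix (Fin 2) (Fin 2) ℂ) =
      (((((2 * y0) ^ 2 - 1) * (2 * y0) * (z - 1) : ℝ)) : ℂ) •
        (qm y0 x1 x2 x3 * qm y0 y1 y2 y3 - qm y0 y1 y2 y3 * qm y0 x1 x2 x3) := by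
    rw [← hX, ← hY]
    push_cast
    push_cast at hid
    exact hid
  have htr := re_tr_of_diff hid2
  refine ⟨_, ?_, htr⟩
  have hineq := real_ineq (p := (2 * y0) ^ 2)
    (a := (x1 + y1) ^ 2 + (x2 + y2) ^ 2 + (x3 + y3) ^ 2)
    (b := (x1 - y1) ^ 2 + (x2 - y2) ^ 2 + (x3 - y3) ^ 2) (by positivity) (by positivity)
    (by positivity) (by linear_combination 2 * hx + 2 * hy)
  have hz1 : z - 1 = 1 - ((x1 + y1) ^ 2 + (x2 + y2) ^ 2 + (x3 + y3) ^ 2) := by
    rw [hz]; linear_combination hx + hy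
  have hcross : 4 * ((x3 * y2 - x2 * y3) ^ 2 + (x1 * y3 - x3 * y1) ^ 2 +
      (x2 * y1 - x1 * y2) ^ 2) = ((x1 + y1) ^ 2 + (x2 + y2) ^ 2 + (x3 + y3) ^ 2) *
      ((x1 - y1) ^ 2 + (x2 - y2) ^ 2 + (x3 - y3) ^ 2) := by
    linear_combination (-(x1 ^ 2 + x2 ^ 2 + x3 ^ 2 - y1 ^ 2 - y2 ^ 2 - y3 ^ 2)) * (hx - hy)
  rw [hz1]
  have hfin : 4 * (((2 * y0) ^ 2 - 1) * (2 * y0) *
      (1 - ((x1 + y1) ^ 2 + (x2 + y2) ^ 2 + (x3 + y3) ^ 2))) ^ 2 *
      ((x3 * y2 - x2 * y3) ^ 2 + (x1 * y3 - x3 * y1) ^ 2 + (x2 * y1 - x1 * y2) ^ 2) =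
      (2 * y0) ^ 2 * ((x1 + y1) ^ 2 + (x2 + y2) ^ 2 + (x3 + y3) ^ 2) *
        ((x1 - y1) ^ 2 + (x2 - y2) ^ 2 + (x3 - y3) ^ 2) * (1 - (2 * y0) ^ 2) ^ 2 *
        (1 - ((x1 + y1) ^ 2 + (x2 + y2) ^ 2 + (x3 + y3) ^ 2)) ^ 2 := by
    linear_combination ((((2 * y0) ^ 2 - 1) * (2 * y0) *
      (1 - ((x1 + y1) ^ 2 + (x2 + y2) ^ 2 + (x3 + y3) ^ 2))) ^ 2) * hcross
  linarith

end mat

/-! ### The hard word -/

/-- `u = (ab)³ (ba) (ab)² (ba)` (`a = 0`, `b = 1`). -/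
def uW : List (Fin 2) := [0, 1, 0, 1, 0, 1, 1, 0, 0, 1, 0, 1, 1, 0]

/-- `v = (ba) (ab)² (ba) (ab)³`. -/
def vW : List (Fin 2) := [1, 0, 0, 1, 0, 1, 1, 0, 0, 1, 0, 1, 0, 1]

lemma eval_posWord (A B : SU2) (u : List (Fin 2)) :
    eval A B (posWord u) = (u.map ![A, B]).prod := by
  rw [posWord, map_list_prod, List.map_map]
  congr 1
  apply List.map_congr_left
  intro i _
  simp [eval]

/-- The word `w = u⁻¹ v`. -/
def wW : FreeGroup (Fin 2) := (posWord uW)⁻¹ * posWord vW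

lemma wW_hard : IsHardWord wW :=
  ⟨uW, vW, by decide, by decide, rfl⟩

lemma tr_comm (A B : SU2) : tr (A * B) = tr (B * A) := by
  unfold tr
  exact Matrix.trace_mul_comm _ _

lemma wW_pos (A B : SU2) : ∃ r : ℝ, 0 < r ∧ tr (eval A B wW) = r := by
  have h := tr_pos (A * B) (B * A) (tr_comm A B)
  have e : eval A B wW = ((((A * B) * (A * B) * (A * B)) *
      ((B * A) * (A * B) * (A * B) * (B * A)))⁻¹ *
      (((B * A) * (A * B) * (A * B) * (B * A)) * ((A * B) * (A * B) * (A * B)))) := by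
    rw [wW, map_mul, map_inv, eval_posWord, eval_posWord]
    simp [uW, vW, mul_assoc]
  rw [e]
  exact h

end Q29.SU
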